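import Mathlib

/-!
# MP_73737a_al : normal subgroups of perfect groups with hypercentral proper subgroups
-/

set_option autoImplicit false

namespace Pool.Agent.Results.MP_73737a_al.BoundedSolubility

open Subgroup
open scoped commutatorElement

/-- Every proper subgroup is hypercentral: every proper quotient of it has a nontrivial centre
(word for word the clause of the frozen statements). -/
def ProperHC (G : Type*) [Group G] : Prop :=
  ∀ H : Subgroup G, H ≠ ⊤ → ∀ N : Subgroup G, N ≤ H →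
    (∀ n ∈ N, ∀ k ∈ H, k * n * k⁻¹ ∈ N) → N ≠ H →
      ∃ h ∈ H, h ∉ N ∧ ∀ k ∈ H, h * k * h⁻¹ * k⁻¹ ∈ N

/-- Nontrivial perfect locally finite groups all of whose proper subgroups are hypercentral. -/
structure Cls (G : Type*) [Group G] : Prop where
  nt : Nontrivial G
  perf : commutator G = ⊤
  lf : ∀ s : Set G, s.Finite → Finite (closure s)
  hc : ProperHC G

section basics

variable {G : Type*} [Group G]

theorem perf_quot (hp : commutator G = ⊤) (K : Subgroup G) [K.Normal] :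
    commutator (G ⧸ K) = ⊤ := by
  have h := map_commutator (⊤ : Subgroup G) ⊤ (QuotientGroup.mk' K)
  rw [show ⁅(⊤ : Subgroup G), (⊤ : Subgroup G)⁆ = (⊤ : Subgroup G) from hp,
    Subgroup.map_top_of_surjective _ (QuotientGroup.mk'_surjective K)] at h
  exact h.symm

theorem center_ne_top [Nontrivial G] (hp : commutator G = ⊤) : center G ≠ ⊤ := by
  intro h
  have h1 : ⁅(⊤ : Subgroup G), (⊤ : Subgroup G)⁆ = (⊥ : Subgroup G) := by
    rw [commutator_eq_bot_iff_le_centralizer]
    intro x _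
    rw [mem_centralizer_iff]
    intro y _
    have : x ∈ center G := by rw [h]; trivial
    exact (mem_center_iff.1 this y)
  have h2 : (⊤ : Subgroup G) = ⊥ := by
    rw [← h1]; exact hp.symm
  exact top_ne_bot (α := Subgroup G) h2

/-- Grün's lemma. -/
theorem grun (hp : commutator G = ⊤) : center (G ⧸ center G) = ⊥ := by
  set Z2 : Subgroup G := (center (G ⧸ center G)).comap (QuotientGroup.mk' (center G)) with hZ2
  have hle : ⁅Z2, (⊤ : Subgroup G)⁆ ≤ center G := by
    rw [commutator_le]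
    intro g hg h _
    have hg' : (QuotientGroup.mk' (center G)) g ∈ center (G ⧸ center G) := hg
    rw [mem_center_iff] at hg'
    have h3 := hg' (QuotientGroup.mk' (center G) h)
    have : (QuotientGroup.mk' (center G)) ⁅g, h⁆ = 1 := by
      rw [map_commutatorElement, commutatorElement_eq_one_iff_mul_comm]
      exact h3.symm
    rwa [← MonoidHom.mem_ker, QuotientGroup.ker_mk'] at this
  have hc : ∀ A : Subgroup G, A ≤ center G → ⁅A, (⊤ : Subgroup G)⁆ = ⊥ := by
    intro A hA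
    rw [commutator_eq_bot_iff_le_centralizer]
    intro x hx
    rw [mem_centralizer_iff]
    intro y _
    exact (mem_center_iff.1 (hA hx) y)
  have h1 : ⁅⁅(⊤ : Subgroup G), Z2⁆, (⊤ : Subgroup G)⁆ = ⊥ := by
    apply hc
    rw [commutator_comm]; exact hle
  have h2 : ⁅⁅Z2, (⊤ : Subgroup G)⁆, (⊤ : Subgroup G)⁆ = ⊥ := hc _ hle
  have h3 : ⁅⁅(⊤ : Subgroup G), (⊤ : Subgroup G)⁆, Z2⁆ = ⊥ :=
    commutator_commutator_eq_bot_of_rotate h1 h2
  rw [show ⁅(⊤ : Subgroup G), (⊤ : Subgroup G)⁆ = (⊤ : Subgroup G) from hp] at h3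
  have h4 : Z2 ≤ center G := by
    rw [commutator_eq_bot_iff_le_centralizer] at h3
    intro z hz
    rw [mem_center_iff]
    intro g
    have := (mem_centralizer_iff.1 (h3 (mem_top g))) z hz
    exact this.symm
  rw [eq_bot_iff]
  intro q hq
  obtain ⟨g, rfl⟩ := QuotientGroup.mk'_surjective (center G) q
  have : g ∈ Z2 := hq
  have := h4 this
  rw [mem_bot]
  rwa [← MonoidHom.mem_ker, QuotientGroup.ker_mk']

theorem quot_cls (hG : Cls G) (K : Subgroup G) [K.Normal] (hK : K ≠ ⊤) : Cls (G ⧸ K) := by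
  refine ⟨?_, perf_quot hG.perf K, ?_, ?_⟩
  · exact QuotientGroup.nontrivial_iff.2 hK
  · intro s hs
    classical
    let t : Set G := (fun q : G ⧸ K => Quotient.out q) '' s
    have ht : t.Finite := hs.image _
    have := hG.lf t ht
    have hmap : (closure t).map (QuotientGroup.mk' K) = closure s := by
      rw [MonoidHom.map_closure]
      congr 1
      ext q
      constructor
      · rintro ⟨g, ⟨q', hq', rfl⟩, rfl⟩
        simpa using hq'
      · intro hq
        exact ⟨Quotient.out q, ⟨q, hq, rfl⟩, by simp⟩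
    rw [← hmap]
    have hsurj : Function.Surjective ((QuotientGroup.mk' K).subgroupMap (closure t)) :=
      MonoidHom.subgroupMap_surjective _ _
    exact Finite.of_surjective _ hsurj
  · intro H hH N hNH hNn hNe
    obtain ⟨h, hh, hhN, hk⟩ := hG.hc (H.comap (QuotientGroup.mk' K))
      (by
        intro h
        apply hH
        rw [eq_top_iff]
        intro q _
        obtain ⟨g, rfl⟩ := QuotientGroup.mk'_surjective K q
        have : g ∈ H.comap (QuotientGroup.mk' K) := by rw [h]; trivial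
        exact this)
      (N.comap (QuotientGroup.mk' K)) (comap_mono hNH)
      (by
        intro n hn k hk
        have := hNn _ hn _ hk
        show (QuotientGroup.mk' K) (k * n * k⁻¹) ∈ N
        simpa using this)
      (by
        intro h
        apply hNe
        have := congrArg (Subgroup.map (QuotientGroup.mk' K)) h
        rwa [map_comap_eq_self_of_surjective (QuotientGroup.mk'_surjective K),
          map_comap_eq_self_of_surjective (QuotientGroup.mk'_surjective K)] at this)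
    refine ⟨QuotientGroup.mk' K h, hh, hhN, ?_⟩
    intro q hq
    obtain ⟨k, rfl⟩ := QuotientGroup.mk'_surjective K q
    have := hk k hq
    have h2 : (QuotientGroup.mk' K) (h * k * h⁻¹ * k⁻¹) ∈ N := this
    simpa using h2

/-- A proper subgroup and a proper normal subgroup never generate the whole group. -/
theorem sup_ne_top (hG : Cls G) (H N : Subgroup G) [N.Normal] (hH : H ≠ ⊤) (hN : N ≠ ⊤) :
    H ⊔ N ≠ ⊤ := by
  intro hsup
  set Z1 : Subgroup G := (center (G ⧸ N)).comap (QuotientGroup.mk' N) with hZ1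
  have hNZ : N ≤ Z1 := by
    intro n hn
    show (QuotientGroup.mk' N) n ∈ center (G ⧸ N)
    have : (QuotientGroup.mk' N) n = 1 := by
      rw [← MonoidHom.mem_ker, QuotientGroup.ker_mk']; exact hn
    rw [this]; exact one_mem _
  have hQ := quot_cls hG N hN
  have hZ1top : Z1 ≠ ⊤ := by
    intro h
    have := hQ.nt
    apply center_ne_top hQ.perf
    rw [eq_top_iff]
    intro q _
    obtain ⟨g, rfl⟩ := QuotientGroup.mk'_surjective N q
    have : g ∈ Z1 := by rw [h]; trivial
    exact this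
  have : Z1.Normal := by rw [hZ1]; infer_instance
  have hmem : ∀ g : G, ∃ k ∈ H, ∃ n ∈ N, k * n = g := by
    intro g
    have : g ∈ (↑(H ⊔ N) : Set G) := by rw [hsup]; trivial
    rw [Subgroup.mul_normal] at this
    exact Set.mem_mul.1 this
  obtain ⟨h, hh, hhN, hk⟩ := hG.hc H hH (H ⊓ Z1) inf_le_left
    (by
      intro n hn k hk
      exact ⟨H.mul_mem (H.mul_mem hk hn.1) (H.inv_mem hk), ‹Z1.Normal›.conj_mem n hn.2 k⟩)
    (by
      intro h
      apply hZ1top
      rw [eq_top_iff]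
      rw [← hsup]
      exact sup_le (inf_eq_left.1 h) hNZ)
  apply hhN
  refine ⟨hh, ?_⟩
  -- show the image of h is central in (G/N)
  show (QuotientGroup.mk' N) h ∈ center (G ⧸ N)
  have hall : ∀ g : G, ⁅h, g⁆ ∈ Z1 := by
    intro g
    obtain ⟨k, hk1, n, hn, rfl⟩ := hmem g
    have h1 : h * k * h⁻¹ * k⁻¹ ∈ Z1 := (hk k hk1).2
    have h2 : h * n * h⁻¹ ∈ N := ‹N.Normal›.conj_mem n hn h
    have h3 : (h * n * h⁻¹) * n⁻¹ ∈ Z1 := hNZ (N.mul_mem h2 (N.inv_mem hn))
    have h4 : ⁅h, k * n⁆ = (h * k * h⁻¹ * k⁻¹) * (k * ((h * n * h⁻¹) * n⁻¹) * k⁻¹) := by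
      rw [commutatorElement_def]; group
    rw [h4]
    exact Z1.mul_mem h1 (‹Z1.Normal›.conj_mem _ h3 k)
  have hbot := grun hQ.perf
  have h5 : (QuotientGroup.mk' (center (G ⧸ N))) ((QuotientGroup.mk' N) h) ∈
      center ((G ⧸ N) ⧸ center (G ⧸ N)) := by
    rw [mem_center_iff]
    intro q
    obtain ⟨q1, rfl⟩ := QuotientGroup.mk'_surjective (center (G ⧸ N)) q
    obtain ⟨g, rfl⟩ := QuotientGroup.mk'_surjective N q1
    have h6 : (QuotientGroup.mk' N) ⁅h, g⁆ ∈ center (G ⧸ N) := hall g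
    rw [← QuotientGroup.ker_mk' (center (G ⧸ N)), MonoidHom.mem_ker] at h6
    rw [map_commutatorElement, map_commutatorElement,
      commutatorElement_eq_one_iff_mul_comm] at h6
    exact h6.symm
  rw [hbot, mem_bot, ← MonoidHom.mem_ker, QuotientGroup.ker_mk'] at h5
  exact h5

/-- Finitely many proper normal subgroups lie in one proper normal subgroup. -/
theorem finset_sup (hG : Cls G) {ι : Type*} (s : Finset ι) (f : ι → Subgroup G)
    (hf : ∀ i ∈ s, (f i).Normal ∧ f i ≠ ⊤) :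
    ∃ N : Subgroup G, N.Normal ∧ N ≠ ⊤ ∧ ∀ i ∈ s, f i ≤ N := by
  classical
  induction s using Finset.induction_on with
  | empty =>
    have := hG.nt
    exact ⟨⊥, inferInstance, bot_ne_top, by simp⟩
  | insert a s ha ih =>
    obtain ⟨N, hN1, hN2, hN3⟩ := ih (fun i hi => hf i (Finset.mem_insert_of_mem hi))
    obtain ⟨ha1, ha2⟩ := hf a (Finset.mem_insert_self a s)
    have := hN1
    have := ha1
    refine ⟨f a ⊔ N, inferInstance, sup_ne_top hG _ _ ha2 hN2, ?_⟩
    intro i hi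
    rcases Finset.mem_insert.1 hi with rfl | hi
    · exact le_sup_left
    · exact (hN3 i hi).trans le_sup_right

end basics

section leaf

variable {G : Type*} [Group G]

/-- The preimage in `H` of the centre of `H / N`. -/
def cmod (H N : Subgroup G) (hn : ∀ n ∈ N, ∀ k ∈ H, k * n * k⁻¹ ∈ N) :
    Subgroup G where
  carrier := {g | g ∈ H ∧ ∀ k ∈ H, g * k * g⁻¹ * k⁻¹ ∈ N}
  one_mem' := ⟨H.one_mem, fun k _ => by simp⟩
  mul_mem' := by
    rintro a b ⟨ha, ha'⟩ ⟨hb, hb'⟩
    refine ⟨H.mul_mem ha hb, fun k hk => ?_⟩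
    have h1 := hn _ (hb' k hk) a ha
    have h2 := ha' k hk
    have : a * b * k * (a * b)⁻¹ * k⁻¹ =
        (a * (b * k * b⁻¹ * k⁻¹) * a⁻¹) * (a * k * a⁻¹ * k⁻¹) := by group
    rw [this]; exact N.mul_mem h1 h2
  inv_mem' := by
    rintro a ⟨ha, ha'⟩
    refine ⟨H.inv_mem ha, fun k hk => ?_⟩
    have h1 := hn _ (N.inv_mem (ha' k hk)) a⁻¹ (H.inv_mem ha)
    have : a⁻¹ * k * a⁻¹⁻¹ * k⁻¹ = a⁻¹ * (a * k * a⁻¹ * k⁻¹)⁻¹ * a⁻¹⁻¹ := by group
    rw [this]; exact h1

theorem no_branch (hG : ProperHC G) (H : Subgroup G) (hH : H ≠ ⊤) (c y : ℕ → G)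
    (hc0 : c 0 ∈ H) (hy : ∀ n, y n ∈ H) (hs : ∀ n, c (n + 1) = ⁅c n, y n⁆)
    (hne : ∀ n, c n ≠ 1) : False := by
  let S : Set (Subgroup G) :=
    {N | N ≤ H ∧ (∀ n ∈ N, ∀ k ∈ H, k * n * k⁻¹ ∈ N) ∧ ∀ i, c i ∉ N}
  have hbot : (⊥ : Subgroup G) ∈ S := by
    refine ⟨bot_le, ?_, ?_⟩
    · intro n hn k _
      rw [mem_bot] at hn ⊢
      rw [hn]; simp
    · intro i hi
      rw [mem_bot] at hi
      exact hne i hi
  obtain ⟨N, _, hmax⟩ := zorn_le_nonempty₀ S (by
    intro C hC hchain Y hY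
    have hdir : DirectedOn (· ≤ ·) C := hchain.directedOn
    have hmem : ∀ g, g ∈ sSup C ↔ ∃ s ∈ C, g ∈ s := fun g => mem_sSup_of_directedOn ⟨Y, hY⟩ hdir
    refine ⟨sSup C, ⟨?_, ?_, ?_⟩, fun z hz => le_sSup hz⟩
    · exact sSup_le fun z hz => (hC hz).1
    · intro n hn k hk
      obtain ⟨s, hs1, hs2⟩ := (hmem n).1 hn
      exact (hmem _).2 ⟨s, hs1, (hC hs1).2.1 n hs2 k hk⟩
    · intro i hi
      obtain ⟨s, hs1, hs2⟩ := (hmem _).1 hi
      exact (hC hs1).2.2 i hs2) ⊥ hbot
  obtain ⟨hNH, hNn, hNc⟩ : N ∈ S := hmax.prop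
  have hNe : N ≠ H := by
    intro h
    exact hNc 0 (by rw [h]; exact hc0)
  obtain ⟨h, hh, hhN, hk⟩ := hG H hH N hNH hNn hNe
  let N' := cmod H N hNn
  have hNN' : N ≤ N' := by
    intro n hn
    refine ⟨hNH hn, fun k hk => ?_⟩
    have := N.mul_mem hn (hNn _ (N.inv_mem hn) k hk)
    have e : n * k * n⁻¹ * k⁻¹ = n * (k * n⁻¹ * k⁻¹) := by group
    rw [e]; exact this
  have hex : ∃ i, c i ∈ N' := by
    by_contra hcon
    push Not at hcon
    have hN'S : N' ∈ S := by
      refine ⟨fun g hg => hg.1, ?_, hcon⟩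
      rintro n ⟨hn1, hn2⟩ k hk
      refine ⟨H.mul_mem (H.mul_mem hk hn1) (H.inv_mem hk), fun l hl => ?_⟩
      have h1 := hn2 (k⁻¹ * l * k) (H.mul_mem (H.mul_mem (H.inv_mem hk) hl) hk)
      have h2 := hNn _ h1 k hk
      have e : k * n * k⁻¹ * l * (k * n * k⁻¹)⁻¹ * l⁻¹ =
          k * (n * (k⁻¹ * l * k) * n⁻¹ * (k⁻¹ * l * k)⁻¹) * k⁻¹ := by group
      rw [e]; exact h2
    have := hmax.le_of_ge hN'S hNN'
    exact hhN (this ⟨hh, hk⟩)
  obtain ⟨i, hi⟩ := hex
  apply hNc (i + 1)
  rw [hs i, commutatorElement_def]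
  exact hi.2 (y i) (hy i)

/-- The capture lemma. -/
theorem exists_leaf (hG : Cls G) (b c0 : G) (hc0 : c0 ≠ 1) (hb : b ∉ zpowers c0) :
    ∃ (V : Subgroup G) (c : G), Finite V ∧ c ≠ 1 ∧ b ∉ V ∧
      ∀ y, ⁅c, y⁆ ≠ 1 → b ∈ V ⊔ zpowers y := by
  classical
  by_contra hcon
  have hstep : ∀ (V : Subgroup G) (c : G), Finite V → c ≠ 1 → b ∉ V →
      ∃ y, ⁅c, y⁆ ≠ 1 ∧ b ∉ V ⊔ zpowers y := by
    intro V c hV hc hbV
    by_contra h
    apply hcon
    refine ⟨V, c, hV, hc, hbV, ?_⟩
    intro y hy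
    by_contra h'
    exact h ⟨y, hy, h'⟩
  have hfin : ∀ (V : Subgroup G) (y : G), Finite V → Finite (V ⊔ zpowers y : Subgroup G) := by
    intro V y hV
    have h1 : V ⊔ zpowers y = closure ((V : Set G) ∪ {y}) := by
      rw [Subgroup.closure_union, Subgroup.closure_eq, zpowers_eq_closure]
    rw [h1]
    exact hG.lf _ ((Set.toFinite (V : Set G)).union (Set.finite_singleton y))
  let St := {p : Subgroup G × G // Finite p.1 ∧ p.2 ≠ 1 ∧ b ∉ p.1}
  have hch : ∀ p : St, ∃ y, ⁅p.1.2, y⁆ ≠ 1 ∧ b ∉ p.1.1 ⊔ zpowers y :=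
    fun p => hstep p.1.1 p.1.2 p.2.1 p.2.2.1 p.2.2.2
  choose f hf1 hf2 using hch
  let nxt : St → St := fun p =>
    ⟨(p.1.1 ⊔ zpowers (f p), ⁅p.1.2, f p⁆), hfin _ _ p.2.1, hf1 p, hf2 p⟩
  have hfc : Finite (zpowers c0) := by
    rw [zpowers_eq_closure]
    exact hG.lf _ (Set.finite_singleton c0)
  let s : ℕ → St := fun n => Nat.rec ⟨(zpowers c0, c0), hfc, hc0, hb⟩ (fun _ p => nxt p) n
  have hs : ∀ n, s (n + 1) = nxt (s n) := fun n => rfl
  let V : ℕ → Subgroup G := fun n => (s n).1.1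
  have hVmono : Monotone V := by
    apply monotone_nat_of_le_succ
    intro n
    show (s n).1.1 ≤ (s (n + 1)).1.1
    rw [hs n]
    exact le_sup_left
  let H : Subgroup G := ⨆ n, V n
  have hmem : ∀ g, g ∈ H ↔ ∃ n, g ∈ V n := fun g =>
    mem_iSup_of_directed (hVmono.directed_le)
  have hbH : b ∉ H := by
    intro h
    obtain ⟨n, hn⟩ := (hmem b).1 h
    exact (s n).2.2.2 hn
  have hH : H ≠ ⊤ := by
    intro h
    exact hbH (by rw [h]; trivial)
  refine no_branch hG.hc H hH (fun n => (s n).1.2) (fun n => f (s n)) ?_ ?_ ?_ ?_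
  · exact (hmem _).2 ⟨0, mem_zpowers c0⟩
  · intro n
    refine (hmem _).2 ⟨n + 1, ?_⟩
    show f (s n) ∈ (s (n + 1)).1.1
    rw [hs n]
    exact (le_sup_right : zpowers (f (s n)) ≤ _) (mem_zpowers _)
  · intro n
    rfl
  · intro n
    exact (s n).2.2.1

/-- The centraliser of the normal closure of an element. -/
def cn (u : G) : Subgroup G := centralizer (normalClosure {u} : Set G)

theorem cn_normal (u : G) : (cn u).Normal := by
  unfold cn; infer_instance

theorem cn_ne_top (hz : center G = ⊥) {u : G} (hu : u ≠ 1) : cn u ≠ ⊤ := by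
  intro h
  apply hu
  rw [← mem_bot, ← hz, mem_center_iff]
  intro g
  have : g ∈ cn u := by rw [h]; trivial
  exact ((mem_centralizer_iff.1 this) u (subset_normalClosure rfl)).symm

/-- The prime property for groups with trivial centre. -/
theorem prime_aux (hG : Cls G) (hz : center G = ⊥) :
    ∃ N : Subgroup G, N.Normal ∧ N ≠ ⊤ ∧
      ∀ M₁ M₂ : Subgroup G, M₁.Normal → M₂.Normal → ⁅M₁, M₂⁆ = ⊥ → M₁ ≤ N ∨ M₂ ≤ N := by
  classical
  have := hG.nt
  obtain ⟨c0, hc0⟩ := exists_ne (1 : G)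
  have hex : ∃ b, b ∉ zpowers c0 := by
    by_contra h
    push Not at h
    apply center_ne_top hG.perf
    rw [eq_top_iff]
    intro x _
    rw [mem_center_iff]
    intro y
    obtain ⟨i, hi⟩ := mem_zpowers_iff.1 (h x)
    obtain ⟨j, hj⟩ := mem_zpowers_iff.1 (h y)
    rw [← hi, ← hj, ← zpow_add, ← zpow_add, add_comm]
  obtain ⟨b, hb⟩ := hex
  obtain ⟨V, c, hV, hc, hbV, hleaf⟩ := exists_leaf hG b c0 hc0 hb
  have := Fintype.ofFinite V
  obtain ⟨N0, hN0n, hN0t, hN0⟩ := finset_sup hG (Finset.univ : Finset V)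
    (fun v => cn ((v : G)⁻¹ * b)) (by
      intro v _
      refine ⟨cn_normal _, cn_ne_top hz ?_⟩
      intro h
      apply hbV
      have : b = (v : G) := by
        have := congrArg (fun x => (v : G) * x) h
        simpa using this
      rw [this]; exact v.2)
  have := hN0n
  have := cn_normal c
  refine ⟨cn c ⊔ N0, inferInstance, sup_ne_top hG _ _ (cn_ne_top hz hc) hN0t, ?_⟩
  intro M₁ M₂ h1 h2 h12
  by_cases hcase : ∃ y ∈ M₁, ⁅c, y⁆ ≠ 1
  · right
    obtain ⟨y, hyM, hy⟩ := hcase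
    have hbm : b ∈ (↑(V ⊔ M₁) : Set G) := by
      have : V ⊔ zpowers y ≤ V ⊔ M₁ := sup_le_sup_left (by rwa [zpowers_le]) _
      exact this (hleaf y hy)
    rw [Subgroup.mul_normal] at hbm
    obtain ⟨v, hv, m, hm, hvm⟩ := Set.mem_mul.1 hbm
    have hu : v⁻¹ * b ∈ M₁ := by
      rw [← hvm]; simpa using hm
    have hle : M₂ ≤ cn (v⁻¹ * b) := by
      intro g hg
      have h12' : ⁅M₂, M₁⁆ = ⊥ := by rw [commutator_comm]; exact h12
      rw [commutator_eq_bot_iff_le_centralizer] at h12'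
      have hcl : normalClosure {v⁻¹ * b} ≤ M₁ := normalClosure_le_normal (by simpa using hu)
      exact centralizer_le hcl (h12' hg)
    exact (hle.trans (hN0 ⟨v, hv⟩ (Finset.mem_univ _))).trans le_sup_right
  · left
    push Not at hcase
    refine le_trans ?_ le_sup_left
    intro g hg
    -- `M₁` centralises `c`, hence all its conjugates
    have hcl : normalClosure {c} ≤ centralizer (M₁ : Set G) := by
      have := h1
      apply normalClosure_le_normal
      intro x hx
      rw [Set.mem_singleton_iff.1 hx]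
      show c ∈ centralizer (M₁ : Set G)
      rw [mem_centralizer_iff]
      intro m hm
      exact (commutatorElement_eq_one_iff_mul_comm.1 (hcase m hm)).symm
    show g ∈ centralizer (normalClosure {c} : Set G)
    rw [mem_centralizer_iff]
    intro k hk
    exact ((mem_centralizer_iff.1 (hcl hk)) g hg).symm

/-- The prime property. -/
theorem prime_prop (hG : Cls G) (K : Subgroup G) [K.Normal] (hK : K ≠ ⊤) :
    ∃ N : Subgroup G, N.Normal ∧ N ≠ ⊤ ∧ K ≤ N ∧
      ∀ M₁ M₂ : Subgroup G, M₁.Normal → M₂.Normal → ⁅M₁, M₂⁆ ≤ K → M₁ ≤ N ∨ M₂ ≤ N := by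
  have hQ := quot_cls hG K hK
  have := hQ.nt
  have hQ2 := quot_cls hQ (center (G ⧸ K)) (center_ne_top hQ.perf)
  obtain ⟨N, hN1, hN2, hN3⟩ := prime_aux hQ2 (grun hQ.perf)
  let π : G →* (G ⧸ K) ⧸ center (G ⧸ K) :=
    (QuotientGroup.mk' (center (G ⧸ K))).comp (QuotientGroup.mk' K)
  have hπ : Function.Surjective π :=
    (QuotientGroup.mk'_surjective _).comp (QuotientGroup.mk'_surjective _)
  have hKker : ∀ k ∈ K, π k = 1 := by
    intro k hk
    have : (QuotientGroup.mk' K) k = 1 := by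
      rw [← MonoidHom.mem_ker, QuotientGroup.ker_mk']; exact hk
    show (QuotientGroup.mk' (center (G ⧸ K))) ((QuotientGroup.mk' K) k) = 1
    rw [this, map_one]
  have := hN1
  refine ⟨N.comap π, inferInstance, ?_, ?_, ?_⟩
  · intro h
    apply hN2
    rw [eq_top_iff]
    intro q _
    obtain ⟨g, rfl⟩ := hπ q
    have : g ∈ N.comap π := by rw [h]; trivial
    exact this
  · intro k hk
    show π k ∈ N
    rw [hKker k hk]; exact one_mem _
  · intro M₁ M₂ h1 h2 h12
    have hcomm : ⁅M₁.map π, M₂.map π⁆ = ⊥ := by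
      rw [← map_commutator, eq_bot_iff]
      rintro _ ⟨g, hg, rfl⟩
      rw [mem_bot]
      exact hKker g (h12 hg)
    rcases hN3 (M₁.map π) (M₂.map π) (h1.map π hπ) (h2.map π hπ) hcomm with h | h
    · left; exact map_le_iff_le_comap.1 h
    · right; exact map_le_iff_le_comap.1 h

/-- Iterated commutator subgroups of a subgroup. -/
def dser (M : Subgroup G) : ℕ → Subgroup G
  | 0 => M
  | n + 1 => ⁅dser M n, dser M n⁆

theorem dser_normal (M : Subgroup G) (hM : M.Normal) (n : ℕ) : (dser M n).Normal := by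
  induction n with
  | zero => exact hM
  | succ n ih =>
    have := ih
    show (⁅dser M n, dser M n⁆ : Subgroup G).Normal
    infer_instance

theorem map_derivedSeries_subtype (M : Subgroup G) (n : ℕ) :
    (derivedSeries M n).map M.subtype = dser M n := by
  induction n with
  | zero =>
    show (⊤ : Subgroup M).map M.subtype = M
    rw [← MonoidHom.range_eq_map, range_subtype]
  | succ n ih =>
    rw [derivedSeries_succ, map_commutator, ih]
    rfl

theorem bounded_dl (hG : Cls G) (d : ℕ) : ∀ (K : Subgroup G), K.Normal → K ≠ ⊤ →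
    ∃ N : Subgroup G, N.Normal ∧ N ≠ ⊤ ∧
      ∀ M : Subgroup G, M.Normal → dser M d ≤ K → M ≤ N := by
  induction d with
  | zero =>
    intro K hK1 hK2
    exact ⟨K, hK1, hK2, fun M _ h => h⟩
  | succ d ih =>
    intro K hK1 hK2
    have := hK1
    obtain ⟨N1, hn1, hn2, _, hn4⟩ := prime_prop hG K hK2
    obtain ⟨N, h1, h2, h3⟩ := ih N1 hn1 hn2
    refine ⟨N, h1, h2, fun M hM hle => h3 M hM ?_⟩
    rcases hn4 (dser M d) (dser M d) (dser_normal M hM d) (dser_normal M hM d) hle with h | h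
    · exact h
    · exact h

end leaf

/-- Let `G` be a nontrivial perfect locally finite group all of whose proper subgroups are
hypercentral. For every `d` all the normal subgroups of `G` that are soluble of derived length at
most `d` lie in one proper normal subgroup `N`. In particular no generating set of `G` consists of
elements whose normal closures are soluble of derived length at most `d`. -/
theorem result (G : Type*) [Group G] [Nontrivial G]
    (hperf : commutator G = ⊤)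
    (hlf : ∀ s : Set G, s.Finite → Finite (Subgroup.closure s))
    (hhc : ∀ H : Subgroup G, H ≠ ⊤ →
        ∀ N : Subgroup G, N ≤ H →
          (∀ n ∈ N, ∀ k ∈ H, k * n * k⁻¹ ∈ N) → N ≠ H →
            ∃ h ∈ H, h ∉ N ∧ ∀ k ∈ H, h * k * h⁻¹ * k⁻¹ ∈ N) :
    ∀ d : ℕ, ∃ N : Subgroup G, N.Normal ∧ N ≠ ⊤ ∧
      (∀ M : Subgroup G, M.Normal → derivedSeries M d = ⊥ → M ≤ N) ∧
      (∀ X : Set G, Subgroup.closure X = ⊤ →
        ∃ x ∈ X, x ∉ N ∧ derivedSeries (Subgroup.normalClosure {x}) d ≠ ⊥) := by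
  have hG : Cls G := ⟨inferInstance, hperf, hlf, hhc⟩
  intro d
  obtain ⟨N, h1, h2, h3⟩ := bounded_dl hG d ⊥ inferInstance bot_ne_top
  have h4 : ∀ M : Subgroup G, M.Normal → derivedSeries M d = ⊥ → M ≤ N := by
    intro M hM hd
    refine h3 M hM ?_
    rw [← map_derivedSeries_subtype, hd, Subgroup.map_bot]
  refine ⟨N, h1, h2, h4, fun X hX => ?_⟩
  by_contra hcon
  push Not at hcon
  apply h2
  rw [eq_top_iff, ← hX, Subgroup.closure_le]
  intro x hx
  by_contra hxN
  have hmem : x ∈ N := h4 (Subgroup.normalClosure {x}) inferInstance (hcon x hx hxN)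
    (Subgroup.subset_normalClosure (Set.mem_singleton x))
  exact hxN hmem

end Pool.Agent.Results.MP_73737a_al.BoundedSolubility
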